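import Mathlib

/-!
# MP_4aa424_co: First-Fit on chordal graphs, a lower bound uniform in the clique number

For every `k ≥ 2` and every `n ≥ k ^ 2` there is a chordal graph with `n` vertices and clique
number exactly `k` on which First-Fit can be made to use at least `(1 / 6) * k * log₂ n` colours.
(For `k = 1` the graph has no edge and First-Fit uses one colour.)

The graph is the disjoint union of `K_k`, isolated vertices, and the binomial tree in which every
vertex is replaced by a clique on `⌊k / 2⌋` vertices.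
-/

set_option autoImplicit false

namespace Pool.Agent.Results.MP_4aa424_co.UniformConstant

/-- A graph is chordal if every cycle of length at least four has a chord: two vertices of the
cycle that are adjacent in `G` but whose edge is not an edge of the cycle. -/
def IsChordal {V : Type} (G : SimpleGraph V) : Prop :=
  ∀ (v : V) (p : G.Walk v v), p.IsCycle → 4 ≤ p.length →
    ∃ x ∈ p.support, ∃ y ∈ p.support, G.Adj x y ∧ s(x, y) ∉ p.edges

/-- `c` is the First-Fit colouring of `G` for the ordering `σ 0, σ 1, …` of its vertices: each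
vertex gets the least positive integer not used on an earlier neighbour. -/
def IsFirstFit {V : Type} [Fintype V] (G : SimpleGraph V) (σ : Fin (Fintype.card V) ≃ V)
    (c : V → ℕ) : Prop :=
  ∀ s, IsLeast {m : ℕ | 1 ≤ m ∧ ∀ r, r < s → G.Adj (σ r) (σ s) → c (σ r) ≠ m} (c (σ s))

open Classical in
/-- The First-Fit chromatic number: the largest number of colours used by First-Fit, over all
orderings of the vertices. -/
noncomputable def chiFF {V : Type} [Fintype V] (G : SimpleGraph V) : ℕ :=
  sSup {t : ℕ | ∃ (σ : Fin (Fintype.card V) ≃ V) (c : V → ℕ), IsFirstFit G σ c ∧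
    t = (Finset.univ.image c).card}

/-! ### Walls -/

theorem le_chiFF_of_wall {V : Type} [Fintype V] (G : SimpleGraph V) (c : V → ℕ)
    (hpos : ∀ v, 1 ≤ c v) (hprop : ∀ u v, G.Adj u v → c u ≠ c v)
    (hwall : ∀ v j, 1 ≤ j → j < c v → ∃ u, G.Adj u v ∧ c u = j) (t : ℕ)
    (ht : ∀ j, 1 ≤ j → j ≤ t → ∃ v, c v = j) : t ≤ chiFF G := by
  classical
  -- an ordering by colour
  let e : V ≃ Fin (Fintype.card V) := Fintype.equivFin V
  let key : V → ℕ ×ₗ Fin (Fintype.card V) := fun v => toLex (c v, e v)
  have hkey : Function.Injective key := by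
    intro u v h
    have : (toLex (c u, e u) : ℕ ×ₗ Fin (Fintype.card V)) = toLex (c v, e v) := h
    rw [toLex_inj, Prod.mk.injEq] at this
    exact e.injective this.2
  let S : Finset (ℕ ×ₗ Fin (Fintype.card V)) := Finset.univ.image key
  have hS : S.card = Fintype.card V := by
    rw [Finset.card_image_of_injective _ hkey, Finset.card_univ]
  let o : Fin (Fintype.card V) ≃o S := S.orderIsoOfFin hS
  have hmem : ∀ v, key v ∈ S := fun v => Finset.mem_image_of_mem _ (Finset.mem_univ v)
  let f : V → Fin (Fintype.card V) := fun v => o.symm ⟨key v, hmem v⟩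
  have hf : Function.Injective f := by
    intro u v h
    have := o.symm.injective h
    exact hkey (Subtype.ext_iff.1 this)
  have hbij : Function.Bijective f := by
    rw [Fintype.bijective_iff_injective_and_card]
    exact ⟨hf, by simp⟩
  let τ : V ≃ Fin (Fintype.card V) := Equiv.ofBijective f hbij
  have hτ : ∀ u v, c u < c v → τ u < τ v := by
    intro u v huv
    show o.symm ⟨key u, hmem u⟩ < o.symm ⟨key v, hmem v⟩
    rw [OrderIso.lt_iff_lt]
    show (toLex (c u, e u) : ℕ ×ₗ Fin (Fintype.card V)) < toLex (c v, e v)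
    rw [Prod.Lex.toLex_lt_toLex]
    exact Or.inl huv
  let σ := τ.symm
  have hff : IsFirstFit G σ c := by
    intro s
    refine ⟨⟨hpos _, fun r _ hadj => hprop _ _ hadj⟩, ?_⟩
    rintro m ⟨hm1, hm2⟩
    by_contra hlt
    push Not at hlt
    obtain ⟨u, hu, hcu⟩ := hwall (σ s) m hm1 hlt
    have h1 : τ u < s := by
      have := hτ u (σ s) (by rw [hcu]; exact hlt)
      simpa [σ] using this
    have h2 : σ (τ u) = u := by simp [σ]
    apply hm2 (τ u) h1
    · rw [h2]; exact hu
    · rw [h2]; exact hcu
  have hbdd : BddAbove {t : ℕ | ∃ (σ : Fin (Fintype.card V) ≃ V) (c : V → ℕ),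
      IsFirstFit G σ c ∧ t = (Finset.univ.image c).card} := by
    refine ⟨Fintype.card V, ?_⟩
    rintro x ⟨_, c', _, rfl⟩
    exact Finset.card_image_le
  have h1 : (Finset.univ.image c).card ≤ chiFF G := le_csSup hbdd ⟨σ, c, hff, rfl⟩
  refine le_trans ?_ h1
  have h2 : Finset.Icc 1 t ⊆ Finset.univ.image c := by
    intro j hj
    rw [Finset.mem_Icc] at hj
    obtain ⟨v, hv⟩ := ht j hj.1 hj.2
    exact Finset.mem_image.2 ⟨v, Finset.mem_univ _, hv⟩
  have h3 := Finset.card_le_card h2
  rwa [Nat.card_Icc, Nat.add_sub_cancel] at h3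

/-! ### Elimination orderings -/

/-- A graph with an elimination ordering is chordal. -/
theorem isChordal_of_elim {V : Type} (G : SimpleGraph V) (h : V → ℕ)
    (hne : ∀ u v, G.Adj u v → h u ≠ h v)
    (hel : ∀ u v w, G.Adj u w → G.Adj v w → h u < h w → h v < h w → u ≠ v → G.Adj u v) :
    IsChordal G := by
  intro v p hp hlen
  -- a vertex of the cycle with the largest value of `h`
  obtain ⟨w, hw, hmax⟩ : ∃ w ∈ p.support, ∀ x ∈ p.support, h x ≤ h w := by
    classical
    have hne' : p.support.toFinset.Nonempty := ⟨v, by simp⟩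
    obtain ⟨w, hw, hm⟩ := Finset.exists_max_image p.support.toFinset h hne'
    exact ⟨w, List.mem_toFinset.1 hw, fun x hx => hm x (List.mem_toFinset.2 hx)⟩
  classical
  let q := p.rotate w hw
  have hq : q.IsCycle := hp.rotate hw
  have hedges : ∀ e, e ∈ p.edges ↔ e ∈ q.edges := fun e => ((p.rotate_edges w hw).mem_iff).symm
  have hsupp : ∀ x, x ∈ q.support → x ∈ p.support := by
    intro x hx
    exact (p.mem_support_rotate_iff w hw).1 hx
  have hqlen : q.length = p.length := by
    rw [← SimpleGraph.Walk.length_edges, ← SimpleGraph.Walk.length_edges]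
    exact (p.rotate_edges w hw).perm.length_eq
  have h4 : 4 ≤ q.length := by omega
  have hnil : ¬ q.Nil := hq.not_nil
  have ha1 : G.Adj w q.snd := q.adj_snd hnil
  have hb1 : G.Adj q.penultimate w := q.adj_penultimate hnil
  have hab : q.snd ≠ q.penultimate := hq.snd_ne_penultimate
  have hsa : q.snd ∈ p.support := hsupp _ (q.getVert_mem_support 1)
  have hsb : q.penultimate ∈ p.support := hsupp _ (q.getVert_mem_support _)
  have hlta : h q.snd < h w := lt_of_le_of_ne (hmax _ hsa) (hne _ _ ha1.symm)
  have hltb : h q.penultimate < h w := lt_of_le_of_ne (hmax _ hsb) (hne _ _ hb1)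
  refine ⟨q.snd, hsa, q.penultimate, hsb, hel _ _ w ha1.symm hb1 hlta hltb hab, ?_⟩
  rw [hedges]
  intro he
  rw [SimpleGraph.Walk.mk_mem_edges_iff_exists] at he
  obtain ⟨i, hi, he⟩ := he
  have e1 : q.snd = q.getVert 1 := rfl
  have e2 : q.penultimate = q.getVert (q.length - 1) := rfl
  rw [e1, e2, Sym2.eq_iff] at he
  have hinj := hq.getVert_injOn
  have hw0 : q.getVert 0 = q.getVert q.length := by simp
  have key : ∀ a b : ℕ, a ≤ q.length → 1 ≤ b → b ≤ q.length → q.getVert a = q.getVert b →
      a = b ∨ (a = 0 ∧ b = q.length) := by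
    intro a b ha hb hb' h
    rcases Nat.eq_zero_or_pos a with h0 | h0
    · right
      refine ⟨h0, ?_⟩
      rw [h0, hw0] at h
      exact (hinj (show 1 ≤ q.length ∧ q.length ≤ q.length by omega)
        (show 1 ≤ b ∧ b ≤ q.length from ⟨hb, hb'⟩) h).symm
    · left
      exact hinj (show 1 ≤ a ∧ a ≤ q.length from ⟨h0, ha⟩)
        (show 1 ≤ b ∧ b ≤ q.length from ⟨hb, hb'⟩) h
  rcases he with ⟨h1, h2⟩ | ⟨h1, h2⟩
  · have k1 := key i 1 (by omega) (by omega) (by omega) h1
    have k2 := key (i + 1) (q.length - 1) (by omega) (by omega) (by omega) h2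
    omega
  · have k1 := key i (q.length - 1) (by omega) (by omega) (by omega) h1
    have k2 := key (i + 1) 1 (by omega) (by omega) (by omega) h2
    omega

/-! ### The graph -/

/-- `y` is a child of `x` in the binomial tree on `0, …, 2 ^ M - 1`: `y` arises from `x` by
adding a power of `2` lower than all binary digits `1` of `x`. -/
def Child (x y : ℕ) : Prop := ∃ e : ℕ, 2 ^ (e + 1) ∣ x ∧ y = x + 2 ^ e

theorem Child.lt {x y : ℕ} (h : Child x y) : x < y := by
  obtain ⟨e, _, rfl⟩ := h
  have : 0 < 2 ^ e := by positivity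
  omega

theorem not_dvd_aux {x e : ℕ} (h : 2 ^ (e + 1) ∣ x) : ¬ 2 ^ (e + 1) ∣ x + 2 ^ e := by
  intro h2
  have h3 : 2 ^ (e + 1) ∣ 2 ^ e := (Nat.dvd_add_right h).1 h2
  exact absurd (Nat.le_of_dvd (by positivity) h3) (by rw [pow_succ]; have : 0 < 2 ^ e := by positivity
                                                      omega)

theorem Child.unique {x x' y : ℕ} (h : Child x y) (h' : Child x' y) : x = x' := by
  obtain ⟨e, he, hy⟩ := h
  obtain ⟨e', he', hy'⟩ := h'
  have key : ∀ a b p q : ℕ, 2 ^ (a + 1) ∣ p → 2 ^ (b + 1) ∣ q → y = p + 2 ^ a → y = q + 2 ^ b →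
      ¬ a < b := by
    intro a b p q ha hb hp hq hlt
    apply not_dvd_aux ha
    rw [← hp, hq]
    have h1 : 2 ^ (a + 1) ∣ 2 ^ b := pow_dvd_pow 2 hlt
    have h2 : 2 ^ (a + 1) ∣ q := (pow_dvd_pow 2 (by omega)).trans hb
    exact dvd_add h2 h1
  have h1 := key e e' x x' he he' hy hy'
  have h2 := key e' e x' x he' he hy' hy
  have h3 : e = e' := by omega
  subst h3
  omega

/-- The largest `e ≤ M` such that `2 ^ e` divides `x`. -/
def lev (M x : ℕ) : ℕ := Nat.findGreatest (fun e => 2 ^ e ∣ x) M

theorem lev_dvd (M x : ℕ) : 2 ^ lev M x ∣ x := by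
  unfold lev
  exact Nat.findGreatest_spec (P := fun e => 2 ^ e ∣ x) (m := 0) (Nat.zero_le _) (by simp)

theorem lev_le (M x : ℕ) : lev M x ≤ M := Nat.findGreatest_le _

theorem Child.lev_parent {M x y e : ℕ} (hy : y < 2 ^ M) (h1 : 2 ^ (e + 1) ∣ x)
    (h2 : y = x + 2 ^ e) : e < lev M x := by
  have : 2 ^ e < 2 ^ M := by omega
  have h3 : e < M := (Nat.pow_lt_pow_iff_right (by norm_num)).1 this
  exact Nat.le_findGreatest (P := fun e => 2 ^ e ∣ x) h3 h1

theorem Child.lev_child {M x y e : ℕ} (hy : y < 2 ^ M) (h1 : 2 ^ (e + 1) ∣ x)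
    (h2 : y = x + 2 ^ e) : lev M y = e := by
  have : 2 ^ e < 2 ^ M := by omega
  have h3 : e < M := (Nat.pow_lt_pow_iff_right (by norm_num)).1 this
  apply le_antisymm
  · by_contra hcon
    push Not at hcon
    have h4 : 2 ^ (e + 1) ∣ y := (pow_dvd_pow 2 hcon).trans (lev_dvd M y)
    rw [h2] at h4
    exact not_dvd_aux h1 h4
  · refine Nat.le_findGreatest (P := fun e => 2 ^ e ∣ y) h3.le ?_
    rw [h2]
    exact dvd_add ((pow_dvd_pow 2 (Nat.le_succ e)).trans h1) (dvd_refl _)

/-- The vertices: `K_k`, the blown-up binomial tree, and isolated vertices. -/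
abbrev Vtx (k r M s : ℕ) : Type := Fin k ⊕ (Fin (2 ^ M) × Fin r) ⊕ Fin s

/-- Adjacency: `Fin k` is a clique; the binomial tree with every vertex replaced by a clique on
`r` vertices; the `s` remaining vertices are isolated. -/
def adj (k r M s : ℕ) : Vtx k r M s → Vtx k r M s → Prop
  | Sum.inl i, Sum.inl j => i ≠ j
  | Sum.inr (Sum.inl (x, i)), Sum.inr (Sum.inl (y, j)) =>
      (x = y ∧ i ≠ j) ∨ Child x y ∨ Child y x
  | _, _ => False

/-- The graph. -/
def gr (k r M s : ℕ) : SimpleGraph (Vtx k r M s) where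
  Adj := adj k r M s
  symm := ⟨by
    rintro (i | ⟨x, i⟩ | i) (j | ⟨y, j⟩ | j) h
    · exact Ne.symm h
    · exact h
    · exact h
    · exact h
    · rcases h with ⟨h1, h2⟩ | h | h
      · exact Or.inl ⟨h1.symm, h2.symm⟩
      · exact Or.inr (Or.inr h)
      · exact Or.inr (Or.inl h)
    · exact h
    · exact h
    · exact h
    · exact h⟩
  loopless := ⟨by
    rintro (i | ⟨x, i⟩ | i) h
    · exact h rfl
    · rcases h with ⟨_, h⟩ | h | h
      · exact h rfl
      · exact absurd h.lt (lt_irrefl _)
      · exact absurd h.lt (lt_irrefl _)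
    · exact h⟩

/-- The elimination ordering. -/
def ht (k r M s : ℕ) : Vtx k r M s → ℕ
  | Sum.inl i => i
  | Sum.inr (Sum.inl (x, i)) => x * r + i
  | Sum.inr (Sum.inr _) => 0

/-- The colouring. -/
def col (k r M s : ℕ) : Vtx k r M s → ℕ
  | Sum.inl i => i + 1
  | Sum.inr (Sum.inl (x, i)) => lev M x * r + i + 1
  | Sum.inr (Sum.inr _) => 1

theorem mul_add_lt {r a b i j : ℕ} (hi : i < r) (h : a < b) : a * r + i < b * r + j := by
  have : (a + 1) * r ≤ b * r := Nat.mul_le_mul_right r h
  have h2 : (a + 1) * r = a * r + r := by ring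
  omega

theorem ht_ne (k r M s : ℕ) (u v : Vtx k r M s) (h : (gr k r M s).Adj u v) :
    ht k r M s u ≠ ht k r M s v := by
  rcases u with i | ⟨x, i⟩ | i <;> rcases v with j | ⟨y, j⟩ | j
  · exact fun h' => h (Fin.ext h')
  · exact h.elim
  · exact h.elim
  · exact h.elim
  · rcases h with ⟨h1, h2⟩ | h | h
    · subst h1
      show (x : ℕ) * r + i ≠ x * r + j
      intro h'
      exact h2 (Fin.ext (by omega))
    · exact (mul_add_lt i.2 h.lt).ne
    · exact (mul_add_lt j.2 h.lt).ne'
  · exact h.elim
  · exact h.elim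
  · exact h.elim
  · exact h.elim

theorem ht_elim (k r M s : ℕ) (u v w : Vtx k r M s) (huw : (gr k r M s).Adj u w)
    (hvw : (gr k r M s).Adj v w) (h1 : ht k r M s u < ht k r M s w)
    (h2 : ht k r M s v < ht k r M s w) (huv : u ≠ v) : (gr k r M s).Adj u v := by
  rcases w with l | ⟨z, l⟩ | l
  · rcases u with i | ⟨x, i⟩ | i
    · rcases v with j | ⟨y, j⟩ | j
      · exact fun h => huv (by rw [h])
      · exact hvw.elim
      · exact hvw.elim
    · exact huw.elim
    · exact huw.elim
  · rcases u with i | ⟨x, i⟩ | i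
    · exact huw.elim
    · rcases v with j | ⟨y, j⟩ | j
      · exact hvw.elim
      · -- the main case
        have hx : x = z ∨ Child x z := by
          rcases huw with ⟨h, _⟩ | h | h
          · exact Or.inl h
          · exact Or.inr h
          · exact absurd (mul_add_lt l.2 h.lt) (not_lt.2 h1.le)
        have hy : y = z ∨ Child y z := by
          rcases hvw with ⟨h, _⟩ | h | h
          · exact Or.inl h
          · exact Or.inr h
          · exact absurd (mul_add_lt l.2 h.lt) (not_lt.2 h2.le)
        rcases hx with rfl | hx <;> rcases hy with rfl | hy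
        · exact Or.inl ⟨rfl, fun h => huv (by rw [h])⟩
        · exact Or.inr (Or.inr hy)
        · exact Or.inr (Or.inl hx)
        · have hxy : x = y := Fin.ext (hx.unique hy)
          subst hxy
          exact Or.inl ⟨rfl, fun h => huv (by rw [h])⟩
      · exact hvw.elim
    · exact huw.elim
  · rcases u with i | ⟨x, i⟩ | i
    · exact huw.elim
    · exact huw.elim
    · exact huw.elim

theorem col_ne (k r M s : ℕ) (u v : Vtx k r M s) (h : (gr k r M s).Adj u v) :
    col k r M s u ≠ col k r M s v := by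
  rcases u with i | ⟨x, i⟩ | i <;> rcases v with j | ⟨y, j⟩ | j
  · show (i : ℕ) + 1 ≠ j + 1
    intro h'
    exact h (Fin.ext (by omega))
  · exact h.elim
  · exact h.elim
  · exact h.elim
  · rcases h with ⟨h1, h2⟩ | h | h
    · subst h1
      show lev M x * r + i + 1 ≠ lev M x * r + j + 1
      intro h'
      exact h2 (Fin.ext (by omega))
    · obtain ⟨e, he1, he2⟩ := h
      have k1 := Child.lev_parent y.2 he1 he2
      have k2 := Child.lev_child y.2 he1 he2
      have := mul_add_lt (j := (i : ℕ)) j.2 k1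
      show lev M x * r + i + 1 ≠ lev M y * r + j + 1
      rw [k2]
      omega
    · obtain ⟨e, he1, he2⟩ := h
      have k1 := Child.lev_parent x.2 he1 he2
      have k2 := Child.lev_child x.2 he1 he2
      have := mul_add_lt (j := (j : ℕ)) i.2 k1
      show lev M x * r + i + 1 ≠ lev M y * r + j + 1
      rw [k2]
      omega
  · exact h.elim
  · exact h.elim
  · exact h.elim
  · exact h.elim

theorem col_wall (k r M s : ℕ) (v : Vtx k r M s) (j : ℕ) (hj1 : 1 ≤ j)
    (hj2 : j < col k r M s v) : ∃ u, (gr k r M s).Adj u v ∧ col k r M s u = j := by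
  rcases v with l | ⟨z, l⟩ | l
  · have hj3 : j < (l : ℕ) + 1 := hj2
    refine ⟨Sum.inl ⟨j - 1, by omega⟩, ?_, ?_⟩
    · intro h
      have := congrArg Fin.val h
      simp only at this
      omega
    · show j - 1 + 1 = j
      omega
  · have hj3 : j < lev M z * r + l + 1 := hj2
    have hl := l.2
    have hr : 0 < r := by omega
    have hdm := Nat.div_add_mod (j - 1) r
    have hmod := Nat.mod_lt (j - 1) hr
    set e := (j - 1) / r with he
    set i := (j - 1) % r with hi
    have hdm' : e * r + i = j - 1 := by rw [mul_comm]; exact hdm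
    have hle : e ≤ lev M z := by
      by_contra hcon
      push Not at hcon
      have := mul_add_lt (j := i) hl hcon
      omega
    rcases Nat.lt_or_ge e (lev M z) with hlt | hge
    · -- a neighbour in a child block
      have hd : 2 ^ (e + 1) ∣ (z : ℕ) := (pow_dvd_pow 2 hlt).trans (lev_dvd M z)
      have hlt2 : (z : ℕ) + 2 ^ e < 2 ^ M := by
        obtain ⟨q, hq⟩ := lev_dvd M z
        have h1 : 2 ^ lev M z * q < 2 ^ M := by rw [← hq]; exact z.2
        have h2 : 2 ^ M = 2 ^ lev M z * 2 ^ (M - lev M z) := by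
          rw [← pow_add]
          congr 1
          have := lev_le M z
          omega
        have h3 : q < 2 ^ (M - lev M z) :=
          lt_of_mul_lt_mul_left (h1.trans_le h2.le) (Nat.zero_le _)
        have h4 : 2 ^ lev M z * (q + 1) ≤ 2 ^ M :=
          (Nat.mul_le_mul_left _ h3).trans h2.ge
        have h5 : 2 ^ lev M z * (q + 1) = 2 ^ lev M z * q + 2 ^ lev M z := by ring
        have h6 : 2 ^ e < 2 ^ lev M z := Nat.pow_lt_pow_right (by norm_num) hlt
        omega
      refine ⟨Sum.inr (Sum.inl (⟨z + 2 ^ e, hlt2⟩, ⟨i, hmod⟩)), ?_, ?_⟩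
      · exact Or.inr (Or.inr ⟨e, hd, rfl⟩)
      · show lev M (z + 2 ^ e) * r + i + 1 = j
        rw [Child.lev_child hlt2 hd rfl]
        omega
    · -- a neighbour in the same block
      have hee : e = lev M z := le_antisymm hle hge
      refine ⟨Sum.inr (Sum.inl (z, ⟨i, hmod⟩)), ?_, ?_⟩
      · refine Or.inl ⟨rfl, fun h => ?_⟩
        have := congrArg Fin.val h
        simp only at this
        rw [← hee] at hj3
        omega
      · show lev M z * r + i + 1 = j
        rw [← hee]
        omega
  · have hj3 : j < 1 := hj2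
    omega

theorem clique_card_le (k r M s : ℕ) (hk : 1 ≤ k) (hr : 2 * r ≤ k) (K : Finset (Vtx k r M s))
    (hK : (gr k r M s).IsClique (K : Set (Vtx k r M s))) : K.card ≤ k := by
  classical
  rcases Finset.eq_empty_or_nonempty K with rfl | ⟨w, hw⟩
  · simp
  rcases w with l | ⟨z0, l⟩ | l
  · -- all vertices are in the complete graph
    have hsub : K ⊆ Finset.univ.image (Sum.inl : Fin k → Vtx k r M s) := by
      intro v hv
      rcases eq_or_ne v (Sum.inl l) with rfl | hne
      · exact Finset.mem_image_of_mem _ (Finset.mem_univ _)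
      · have h := hK hv hw hne
        rcases v with j | ⟨y, j⟩ | j
        · exact Finset.mem_image_of_mem _ (Finset.mem_univ _)
        · exact h.elim
        · exact h.elim
    refine (Finset.card_le_card hsub).trans (Finset.card_image_le.trans ?_)
    simp
  · -- all vertices are in the blown-up tree
    have hall : ∀ v ∈ K, ∃ (x : Fin (2 ^ M)) (i : Fin r), v = Sum.inr (Sum.inl (x, i)) := by
      intro v hv
      rcases eq_or_ne v (Sum.inr (Sum.inl (z0, l))) with rfl | hne
      · exact ⟨_, _, rfl⟩
      · have h := hK hv hw hne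
        rcases v with j | ⟨y, j⟩ | j
        · exact h.elim
        · exact ⟨_, _, rfl⟩
        · exact h.elim
    -- the vertex of the tree with the largest number
    let S : Finset (Fin (2 ^ M)) := Finset.univ.filter
      (fun x => ∃ i : Fin r, (Sum.inr (Sum.inl (x, i)) : Vtx k r M s) ∈ K)
    have hS : S.Nonempty := ⟨z0, by simp only [S, Finset.mem_filter, Finset.mem_univ, true_and]; exact ⟨l, hw⟩⟩
    obtain ⟨z, hz, hmax⟩ := Finset.exists_max_image S (fun x => (x : ℕ)) hS
    have hch : ∀ x ∈ S, x ≠ z → Child x z := by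
      intro x hx hne
      have hlt := lt_of_le_of_ne (hmax x hx) (fun h => hne (Fin.ext h))
      simp only [S, Finset.mem_filter, Finset.mem_univ, true_and] at hx hz
      obtain ⟨i, hi⟩ := hx
      obtain ⟨j, hj⟩ := hz
      have h := hK hi hj (by
        intro h
        simp only [Sum.inr.injEq, Sum.inl.injEq, Prod.mk.injEq] at h
        exact hne h.1)
      rcases h with ⟨h, _⟩ | h | h
      · exact absurd h hne
      · exact h
      · exact absurd h.lt (not_lt.2 hlt.le)
    have hScard : S.card ≤ 2 := by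
      by_contra hcon
      push Not at hcon
      have h1 : 1 < (S.erase z).card := by
        rw [Finset.card_erase_of_mem hz]; omega
      obtain ⟨a, ha, b, hb, hab⟩ := Finset.one_lt_card.1 h1
      rw [Finset.mem_erase] at ha hb
      exact hab (Fin.ext ((hch a ha.2 ha.1).unique (hch b hb.2 hb.1)))
    have hsub : K ⊆ (S ×ˢ (Finset.univ : Finset (Fin r))).image
        (fun p => (Sum.inr (Sum.inl p) : Vtx k r M s)) := by
      intro v hv
      obtain ⟨x, i, rfl⟩ := hall v hv
      refine Finset.mem_image.2 ⟨(x, i), ?_, rfl⟩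
      rw [Finset.mem_product]
      refine ⟨?_, Finset.mem_univ _⟩
      simp only [S, Finset.mem_filter, Finset.mem_univ, true_and]
      exact ⟨i, hv⟩
    refine (Finset.card_le_card hsub).trans (Finset.card_image_le.trans ?_)
    rw [Finset.card_product, Finset.card_univ, Fintype.card_fin]
    exact (Nat.mul_le_mul_right r hScard).trans hr
  · -- an isolated vertex
    have hsub : K ⊆ {Sum.inr (Sum.inr l)} := by
      intro v hv
      rcases eq_or_ne v (Sum.inr (Sum.inr l)) with rfl | hne
      · exact Finset.mem_singleton_self _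
      · have h := hK hv hw hne
        rcases v with j | ⟨y, j⟩ | j
        · exact h.elim
        · exact h.elim
        · exact h.elim
    refine (Finset.card_le_card hsub).trans ?_
    simpa using hk

theorem cliqueNum_eq (k r M s : ℕ) (hk : 1 ≤ k) (hr : 2 * r ≤ k) :
    (gr k r M s).cliqueNum = k := by
  classical
  apply le_antisymm
  · obtain ⟨K, hK⟩ := (gr k r M s).exists_isNClique_cliqueNum
    rw [← hK.card_eq]
    exact clique_card_le k r M s hk hr K hK.isClique
  · have h : (gr k r M s).IsNClique k (Finset.univ.image (Sum.inl : Fin k → Vtx k r M s)) := by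
      refine ⟨?_, ?_⟩
      · intro u hu v hv hne
        simp only [Finset.coe_image, Finset.coe_univ, Set.image_univ, Set.mem_range] at hu hv
        obtain ⟨i, rfl⟩ := hu
        obtain ⟨j, rfl⟩ := hv
        exact fun h => hne (by rw [h])
      · rw [Finset.card_image_of_injective _ Sum.inl_injective]
        simp
    have h2 := SimpleGraph.IsClique.card_le_cliqueNum (tc := h.isClique)
    rwa [h.card_eq] at h2

/-- **Answer to the question of Irani.** For every `k ≥ 2` and every `n ≥ k` there is a chordal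
graph on `n` vertices with clique number `k` and First-Fit chromatic number at least
`(1 / 3) * k * log₂ (n / k)`; for `n ≥ k ^ 2` this is at least `(1 / 6) * k * log₂ n`. -/
theorem result : ∀ k : ℕ, 2 ≤ k → ∀ n : ℕ, k ≤ n →
    ∃ (V : Type) (_ : Fintype V) (G : SimpleGraph V), Fintype.card V = n ∧ IsChordal G ∧
      G.cliqueNum = k ∧ (1 / 3 : ℝ) * k * Real.logb 2 ((n : ℝ) / k) ≤ chiFF G ∧
      (k ^ 2 ≤ n → (1 / 6 : ℝ) * k * Real.logb 2 n ≤ chiFF G) := by
  intro k hk n hn
  have hkR : (0 : ℝ) < k := by exact_mod_cast (by omega : 0 < k)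
  have hnR : (0 : ℝ) < n := by exact_mod_cast (by omega : 0 < n)
  -- it suffices to prove the first inequality
  suffices h : ∃ (V : Type) (_ : Fintype V) (G : SimpleGraph V), Fintype.card V = n ∧
      IsChordal G ∧ G.cliqueNum = k ∧ (1 / 3 : ℝ) * k * Real.logb 2 ((n : ℝ) / k) ≤ chiFF G by
    obtain ⟨V, hV, G, h1, h2, h3, h4⟩ := h
    refine ⟨V, hV, G, h1, h2, h3, h4, fun hkn => le_trans ?_ h4⟩
    have h5 : Real.logb 2 n ≤ 2 * Real.logb 2 ((n : ℝ) / k) := by
      have e : 2 * Real.logb 2 ((n : ℝ) / k) = Real.logb 2 (((n : ℝ) / k) ^ 2) := by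
        rw [Real.logb_pow]; norm_num
      rw [e]
      apply Real.logb_le_logb_of_le (by norm_num) hnR
      rw [div_pow, le_div_iff₀ (by positivity)]
      have : (k : ℝ) ^ 2 ≤ n := by exact_mod_cast hkn
      nlinarith
    have h6 : (1 / 6 : ℝ) * k * Real.logb 2 n ≤ (1 / 6 : ℝ) * k * (2 * Real.logb 2 ((n : ℝ) / k)) :=
      mul_le_mul_of_nonneg_left h5 (by positivity)
    linarith
  rcases Nat.lt_or_ge n (2 * k) with hsmall | hbig
  · -- the complete graph and isolated vertices
    refine ⟨Vtx k 0 0 (n - k), inferInstance, gr k 0 0 (n - k), ?_,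
      isChordal_of_elim _ (ht k 0 0 (n - k)) (ht_ne k 0 0 (n - k)) (ht_elim k 0 0 (n - k)),
      cliqueNum_eq k 0 0 (n - k) (by omega) (by omega), ?_⟩
    · simp only [Fintype.card_sum, Fintype.card_fin, Fintype.card_prod]
      omega
    · have hff : k ≤ chiFF (gr k 0 0 (n - k)) := by
        apply le_chiFF_of_wall _ (col k 0 0 (n - k))
        · rintro (i | ⟨x, i⟩ | i)
          · exact Nat.le_add_left _ _
          · exact Nat.le_add_left _ _
          · exact le_rfl
        · exact col_ne k 0 0 (n - k)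
        · exact col_wall k 0 0 (n - k)
        · intro j hj1 hj2
          refine ⟨Sum.inl ⟨j - 1, by omega⟩, ?_⟩
          show j - 1 + 1 = j
          omega
      have h7 : (k : ℝ) ≤ chiFF (gr k 0 0 (n - k)) := by exact_mod_cast hff
      have h8 : Real.logb 2 ((n : ℝ) / k) ≤ 1 := by
        rw [← Real.logb_self_eq_one (b := 2) (by norm_num)]
        apply Real.logb_le_logb_of_le (by norm_num) (by positivity)
        rw [div_le_iff₀ hkR]
        exact_mod_cast hsmall.le
      have h9 : (1 / 3 : ℝ) * k * Real.logb 2 ((n : ℝ) / k) ≤ (1 / 3 : ℝ) * k * 1 :=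
        mul_le_mul_of_nonneg_left h8 (by positivity)
      linarith
  · obtain ⟨r, hr⟩ : ∃ r, r = k / 2 := ⟨_, rfl⟩
    have hr1 : 1 ≤ r := by omega
    have hr2 : 2 * r ≤ k := by omega
    have hr3 : k ≤ 3 * r := by omega
    obtain ⟨M, hM⟩ : ∃ M, M = Nat.log 2 ((n - k) / r) := ⟨_, rfl⟩
    have hdiv : (n - k) / r ≠ 0 := by
      have : 1 ≤ (n - k) / r := (Nat.one_le_div_iff hr1).2 (by omega)
      omega
    have h1 : 2 ^ M * r ≤ n - k := by
      have : 2 ^ M ≤ (n - k) / r := by rw [hM]; exact Nat.pow_log_le_self 2 hdiv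
      exact (Nat.mul_le_mul_right r this).trans (Nat.div_mul_le_self _ _)
    have h2 : n - k < 2 ^ (M + 1) * r := by
      have : (n - k) / r < 2 ^ (M + 1) := by
        rw [hM]; exact Nat.lt_pow_succ_log_self (by norm_num) _
      exact (Nat.div_lt_iff_lt_mul hr1).1 this
    obtain ⟨s, hs⟩ : ∃ s, s = n - k - 2 ^ M * r := ⟨_, rfl⟩
    refine ⟨Vtx k r M s, inferInstance, gr k r M s, ?_,
      isChordal_of_elim _ (ht k r M s) (ht_ne k r M s) (ht_elim k r M s),
      cliqueNum_eq k r M s (by omega) hr2, ?_⟩
    · simp only [Fintype.card_sum, Fintype.card_fin, Fintype.card_prod]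
      omega
    · -- First-Fit uses at least `(M + 1) * r` colours
      have h0 : lev M 0 = M := by
        apply le_antisymm (lev_le M 0)
        exact Nat.le_findGreatest (P := fun e => 2 ^ e ∣ 0) le_rfl (dvd_zero _)
      let v0 : Vtx k r M s := Sum.inr (Sum.inl (⟨0, by positivity⟩, ⟨r - 1, by omega⟩))
      have hv0 : col k r M s v0 = (M + 1) * r := by
        show lev M 0 * r + (r - 1) + 1 = (M + 1) * r
        rw [h0, add_mul, one_mul]
        omega
      have hff : (M + 1) * r ≤ chiFF (gr k r M s) := by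
        apply le_chiFF_of_wall _ (col k r M s)
        · rintro (i | ⟨x, i⟩ | i)
          · exact Nat.le_add_left _ _
          · exact Nat.le_add_left _ _
          · exact le_rfl
        · exact col_ne k r M s
        · exact col_wall k r M s
        · intro j hj1 hj2
          rcases Nat.lt_or_ge j ((M + 1) * r) with hlt | hge
          · obtain ⟨u, _, hu⟩ := col_wall k r M s v0 j hj1 (by rw [hv0]; exact hlt)
            exact ⟨u, hu⟩
          · exact ⟨v0, by rw [hv0]; omega⟩
      -- the inequality
      have h3 : n < 2 ^ (M + 1) * k := by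
        have : 2 ^ (M + 1) * (2 * r) ≤ 2 ^ (M + 1) * k := Nat.mul_le_mul_left _ hr2
        have e : 2 ^ (M + 1) * (2 * r) = 2 * (2 ^ (M + 1) * r) := by ring
        omega
      have h5 : Real.logb 2 ((n : ℝ) / k) ≤ M + 1 := by
        have b0 : (n : ℝ) / k ≤ (2 : ℝ) ^ (M + 1) := by
          rw [div_le_iff₀ hkR]
          exact_mod_cast h3.le
        have b1 : Real.logb 2 ((n : ℝ) / k) ≤ Real.logb 2 ((2 : ℝ) ^ (M + 1)) :=
          Real.logb_le_logb_of_le (by norm_num) (by positivity) b0
        rw [Real.logb_pow, Real.logb_self_eq_one (by norm_num)] at b1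
        push_cast at b1
        linarith
      have h6 : (k : ℝ) ≤ 3 * r := by exact_mod_cast hr3
      have h7 : (((M + 1) * r : ℕ) : ℝ) ≤ chiFF (gr k r M s) := by exact_mod_cast hff
      push_cast at h7
      have h8 : (1 / 3 : ℝ) * k * Real.logb 2 ((n : ℝ) / k) ≤ (1 / 3 : ℝ) * k * (M + 1) :=
        mul_le_mul_of_nonneg_left h5 (by positivity)
      have h9 : (1 / 3 : ℝ) * k * (M + 1) ≤ (1 / 3 : ℝ) * (3 * r) * (M + 1) := by
        apply mul_le_mul_of_nonneg_right _ (by positivity)
        linarith
      linarith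

end Pool.Agent.Results.MP_4aa424_co.UniformConstant
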